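import Pool.Agent.H5R2.NL.H1Main

/-!
# MP_28854f_mp: the limit of `E₀(N) / N^{5/3}` exists for bosonic Coulomb matter

`E3 = ℝ³`. For positions `x : Fin N → E3` of the `N` negative particles (charge `-1`) and
`R : Fin K → E3` of the `K` static particles (charge `z`), `coul z x R` is the Coulomb energy
`∑_{i<j} 1/|x_i - x_j| - z ∑_{i,j} 1/|x_i - R_j| + z² ∑_{i<j} 1/|R_i - R_j|` (written with half
sums over all ordered pairs; the diagonal terms are `1 / 0 = 0` in Lean). `IsH1 ψ g` says that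
`ψ ∈ H¹(ℝ^{3N})` (complex valued, no symmetry) with weak partial derivatives `g i c`, and
`formH1 z R ψ g = ∑_{i,c} ∫ |g i c|² + ∫ coul z x R |ψ|²`. `E0H1 z K N` is the infimum of
`formH1 z R ψ g` over all normalised `ψ ∈ H¹` and all positions `R` of the static particles
(pairwise different: `U(R) = ∞` otherwise).

The proof also gives the value of the limit, `-(z^{2/3} c_*)² Γ / 4` (`H1Main.main_H1`), with `c_*`
the constant of the classical jellium and `Γ` the best constant in
`(∫ |u|^{8/3})² ≤ Γ (∫ |∇u|²)` for normalised `u`.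
-/

namespace Pool.Agent.Results.MP_28854f_mp.LimitExists

open MeasureTheory Pool.Agent.H5R2.NL

/-- For every charge `z > 0`: the Coulomb energy of every `ψ ∈ H¹` is an absolutely convergent
integral, and there is a real number `e` with `E₀(N) / N^{5/3} → e` as `N → ∞` through the
integers of the form `N = K z`. -/
theorem result (z : ℝ) (hz : 0 < z) :
    (∀ (N K : ℕ) (R : Fin K → E3) (ψ : (Fin N → E3) → ℂ)
      (g : Fin N → Fin 3 → (Fin N → E3) → ℂ), IsH1 ψ g →
        Integrable (fun x => coul z x R * ‖ψ x‖ ^ 2)) ∧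
    ∃ e : ℝ, ∀ ε : ℝ, 0 < ε → ∃ N₀ : ℕ, ∀ K N : ℕ, (N : ℝ) = K * z → N₀ ≤ N →
      (energiesH1 z K N).Nonempty ∧ BddBelow (energiesH1 z K N) ∧
        |E0H1 z K N / (N : ℝ) ^ (5 / 3 : ℝ) - e| < ε :=
  ⟨fun _ _ R ψ g h => h1_integrable z R ψ g h,
    -((z ^ (2 / 3 : ℝ) * cstar) ^ 2 * Gam / 4), fun ε hε => main_H1 z hz ε hε⟩

end Pool.Agent.Results.MP_28854f_mp.LimitExists
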